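import Pool.Agent.Lib.TG9_h65.PeelStmt
import Pool.Agent.Lib.TG_h68.Cl

/-!
# TANK G, BC9: row GOOD
-/

set_option autoImplicit false

namespace Pool.Agent.TG9

universe u

/-- **ROW GOOD.** -/
theorem goodStmt' (k K : Type u) [Field k] [Field K] [Algebra k K] (n p : ℕ) :
    GoodStmt k K n p := goodStmt (clStmt k K) (peelStmt k K n p)

end Pool.Agent.TG9
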