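import Pool.Agent.Lib.TG9_h96.R3a
import Pool.Agent.Lib.TG9_h22.R7
import Pool.Agent.Lib.TG_h21.Res
import Pool.Agent.Lib.TG_h77.LDeg

/-!
# TANK G, BC9, row R3: bad divisors
-/

set_option autoImplicit false

namespace Pool.Agent.TG9

open Pool.Agent.TG (Ov ZDim IsMin IsModel Bir ch chN LB KB PB PP PDiv RV stab LDeg ProjP)
open Pool.Agent.LU2 (locV)
open Pool.Agent.TG15 (Gt Tp hx smulK)
open Pool.Agent.TG9h22 (setup_val setup_ind_b setup_model pdiv_mem pdiv_dv form_div)
open Pool.Agent.TG21 (bL isTranscendenceBasis_LB res_finite)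
open Module Filter MvPolynomial

universe u

/-- Residues of values of polynomials. -/
theorem res_aeval {k K κ : Type u} [Field k] [Field K] [Algebra k K] [Field κ] [Algebra k κ]
    {v : ValuationSubring K} {φ : v →+* κ} (hv : Ov k v)
    (hk : ∀ c : k, φ ⟨algebraMap k K c, hv c⟩ = algebraMap k κ c) {σ : Type*} {u : σ → K}
    {y : σ → κ} (hy : ∀ a, ∃ h : u a ∈ v, φ ⟨u a, h⟩ = y a) (P : MvPolynomial σ k) :
    ∃ h : aeval u P ∈ v, φ ⟨aeval u P, h⟩ = aeval y P := by
  induction P using MvPolynomial.induction_on with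
  | C c =>
    have h1 : aeval u (C c : MvPolynomial σ k) = algebraMap k K c := algHom_C _ _
    have h2 : aeval y (C c : MvPolynomial σ k) = algebraMap k κ c := algHom_C _ _
    refine ⟨by rw [h1]; exact hv c, ?_⟩
    rw [h2, ← hk c]
    exact congrArg φ (Subtype.ext h1)
  | add p q hp hq =>
    obtain ⟨h1, h2⟩ := hp
    obtain ⟨h3, h4⟩ := hq
    refine ⟨by rw [map_add]; exact v.add_mem _ _ h1 h3, ?_⟩
    have e : aeval y (p + q) = aeval y p + aeval y q := map_add _ _ _
    rw [e, ← h2, ← h4, ← map_add φ]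
    exact congrArg φ (Subtype.ext (map_add _ _ _))
  | mul_X p i hp =>
    obtain ⟨h1, h2⟩ := hp
    obtain ⟨h3, h4⟩ := hy i
    refine ⟨by rw [map_mul, aeval_X]; exact v.mul_mem _ _ h1 h3, ?_⟩
    have e : aeval y (p * X i) = aeval y p * y i := by rw [map_mul, aeval_X]
    rw [e, ← h2, ← h4, ← map_mul φ]
    refine congrArg φ (Subtype.ext ?_)
    change aeval u (p * X i) = aeval u p * u i
    rw [map_mul, aeval_X]

/-- Separability over an isomorphic field. -/
theorem isSeparable_of_range {k F κ : Type u} [Field k] [Field F] [Field κ] [Algebra k F]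
    [Algebra k κ] [Algebra F κ] [IsScalarTower k F κ] (E : IntermediateField k κ)
    (hE : E = (IsScalarTower.toAlgHom k F κ).fieldRange) {x : κ} (hx : IsSeparable E x) :
    IsSeparable F x := by
  subst hE
  let e : F ≃ₐ[k] (IsScalarTower.toAlgHom k F κ).fieldRange :=
    AlgEquiv.ofInjectiveField (IsScalarTower.toAlgHom k F κ)
  have h1 := IsSeparable.of_equiv_equiv (A₁ := (IsScalarTower.toAlgHom k F κ).fieldRange)
    (B₁ := κ) (A₂ := F) (B₂ := κ) e.symm.toRingEquiv (RingEquiv.refl κ) (by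
      ext y
      obtain ⟨w, rfl⟩ := e.surjective y
      change algebraMap F κ (e.symm (e w)) = ((e w : (IsScalarTower.toAlgHom k F κ).fieldRange) : κ)
      rw [e.symm_apply_apply]
      rfl) hx
  exact h1

section Core

variable {k K : Type u} [Field k] [Field K] [Algebra k K] {m' p : ℕ} {A₀ : Subalgebra k K}
  {L : Submodule k K} {c : ℕ} {τ : K} {c' m : ℕ} {q : K [⋀^Fin (m' + 1 + 1)]→ₗ[k] K}
  {W : Submodule k K} {f : Fin (m' + 1 + 1) → K}
  {h : Fin (m' + 1 + 1) → MvPolynomial (Fin (m' + 1 + 1)) k}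

/-- The coordinates of `P^(m')`, as elements of `k(b)`. -/
noncomputable def xL (k : Type u) {K : Type u} [Field k] [Field K] [Algebra k K] {m' : ℕ}
    (b : Fin m' → K) : Fin (m' + 1 + 1) → LB k b :=
  Fin.cons 1 (Fin.snoc (bL k b) 0)

theorem xL_set (b : Fin m' → K) : {z : LB k b | ∃ i : Fin (m' + 1 + 1), (i : ℕ) ≤ m' ∧
    z = xL k b i} = insert 1 (Set.range (bL k b)) := by
  ext z
  constructor
  · rintro ⟨i, hi, rfl⟩
    rcases Fin.eq_zero_or_eq_succ i with rfl | ⟨j, rfl⟩
    · exact Or.inl rfl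
    · rcases Fin.eq_castSucc_or_eq_last j with ⟨l, rfl⟩ | rfl
      · refine Or.inr ⟨l, ?_⟩
        simp [xL]
      · simp at hi
  · rintro (rfl | ⟨l, rfl⟩)
    · exact ⟨0, Nat.zero_le _, rfl⟩
    · refine ⟨l.castSucc.succ, ?_, ?_⟩
      · have := l.isLt
        simp
      · simp [xL]

theorem xL_adjoin (b : Fin m' → K) :
    IntermediateField.adjoin k (insert 1 (Set.range (bL k b))) = ⊤ := by
  apply IntermediateField.map_injective (LB k b).val
  rw [IntermediateField.adjoin_map, Set.image_insert_eq, ← Set.range_comp]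
  have h1 : ((LB k b).val ∘ bL k b : Fin m' → K) = b := rfl
  rw [h1, map_one]
  apply le_antisymm
  · rw [IntermediateField.adjoin_le_iff]
    rintro x (rfl | ⟨i, rfl⟩)
    · exact one_mem _
    · exact ⟨bL k b i, trivial, rfl⟩
  · rintro _ ⟨x, -, rfl⟩
    have h2 : LB k b ≤ IntermediateField.adjoin k (insert 1 (Set.range b)) :=
      IntermediateField.adjoin.mono _ _ _ (Set.subset_insert _ _)
    exact h2 x.2

theorem PB_eq_span (b : Fin m' → K) :
    PB k b = Submodule.span k (insert 1 (Set.range (bL k b))) := by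
  have h1 : (Submodule.span k (insert 1 (Set.range (bL k b)))).map (LB k b).val.toLinearMap =
      Submodule.span k (insert 1 (Set.range b)) := by
    rw [Submodule.map_span, Set.image_insert_eq, ← Set.range_comp]
    rfl
  unfold PB TG.spn
  rw [← h1]
  exact Submodule.comap_map_eq_of_injective (LB k b).val.injective _

/-- The core of ROW R3, for an abstract residue field. -/
theorem r3_core {κ : Type u} [Field κ] [Algebra k κ] [Algebra (LB k (bb f h)) κ]
    [IsScalarTower k (LB k (bb f h)) κ]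
    (hdeg : ∀ (M : Type u) [Field M] [Algebra k M] [Algebra M κ] [IsScalarTower k M κ]
      [Algebra (LB k (bb f h)) M] [IsScalarTower k (LB k (bb f h)) M],
      DegStmt k K κ M (LB k (bb f h)) (m' + 1) m')
    (hfin : FiniteDimensional (KB k (bb f h) (zz f h)) K)
    (S : Setup (m' + 1) p A₀ L c τ c' m q W f h) {v : ValuationSubring K}
    (hv : PDiv k (bb f h) (zz f h) v) (hL : ∀ x ∈ LB k (bb f h), x ∈ v)
    (hbad : BadF L (c + m) τ W q f v) {φ : v →+* κ} (hφ : IsRes φ)
    (hφL : ∀ x : LB k (bb f h), φ ⟨x, hL x x.2⟩ = algebraMap (LB k (bb f h)) κ x)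
    {a₁ : Fin (m' + 1 + 1)} (ha₁ : IsMin v ((W * L) ^ (2 * (m' + 1) + 3)) (f a₁))
    {y : Fin (m' + 1 + 1) → κ} (hy : ∀ a, ∃ h : f a / f a₁ ∈ v, φ ⟨f a / f a₁, h⟩ = y a)
    (hsec : ∀ B : ValuationSubring κ, ZDim k B → SecAt (m' + 1 + 1) m' h y B)
    (hsep : AlgebraicIndependent k (fun i : Fin m' =>
        aeval y (h i.castSucc.succ) / aeval y (h 0)) →
      IsSeparable (IntermediateField.adjoin k (Set.range fun i : Fin m' =>
        aeval y (h i.castSucc.succ) / aeval y (h 0)))
        (aeval y (h (Fin.last (m' + 1))) / aeval y (h 0))) :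
    BadConcl k (bb f h) (zz f h) (d9 (m' + 1)) v := by
  classical
  have halg := S.closed
  have hov : Ov k v := hv.ov
  have hk : ∀ c : k, φ ⟨algebraMap k K c, hov c⟩ = algebraMap k κ c := by
    intro c
    have h1 := hφL (algebraMap k _ c)
    rw [← IsScalarTower.algebraMap_apply] at h1
    rw [← h1]
    rfl
  have hcl := (clStmt k K S.closed S.fg).1
  have hWm : IsModel W := by
    refine ⟨?_, S.W_ne⟩
    have h1 : FiniteDimensional k (L ^ m : Submodule k K) :=
      Module.Finite.iff_fg.2 (S.dat.fg.pow m)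
    exact Module.Finite.iff_fg.1 (Submodule.finiteDimensional_of_le S.W_le)
  have hfa : f a₁ ≠ 0 := ha₁.ne
  -- values of the forms
  have hval := setup_val S hov (pdiv_mem S hv) ha₁
  have hform : ∀ i, ∃ hm : aeval f (h i) / f a₁ ^ (m' + 1 + 1) ∈ v,
      φ ⟨aeval f (h i) / f a₁ ^ (m' + 1 + 1), hm⟩ = aeval y (h i) := by
    intro i
    obtain ⟨h1, h2⟩ := res_aeval hov hk hy (h i)
    have h3 := form_div (S.hom i) hfa f
    refine ⟨by rw [h3]; exact h1, ?_⟩
    rw [← h2]
    exact congrArg φ (Subtype.ext h3)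
  have hy0 : aeval y (h 0) ≠ 0 := by
    obtain ⟨h1, h2⟩ := hform 0
    rw [← h2]
    intro h0
    have h3 := (hφ.zero _).1 h0
    change v.valuation (aeval f (h 0) / f a₁ ^ (m' + 1 + 1)) < 1 at h3
    rw [map_div₀, map_pow, hval, div_self] at h3
    · exact lt_irrefl _ h3
    · exact pow_ne_zero _ ((Valuation.ne_zero_iff _).2 hfa)
  have hratio : ∀ i (hi : aeval f (h i) / aeval f (h 0) ∈ v),
      φ ⟨aeval f (h i) / aeval f (h 0), hi⟩ = aeval y (h i) / aeval y (h 0) := by
    intro i hi
    rw [eq_div_iff hy0]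
    obtain ⟨h1, h2⟩ := hform 0
    obtain ⟨h3, h4⟩ := hform i
    rw [← h2, ← h4, ← map_mul]
    refine congrArg φ (Subtype.ext ?_)
    change aeval f (h i) / aeval f (h 0) * (aeval f (h 0) / f a₁ ^ (m' + 1 + 1)) =
      aeval f (h i) / f a₁ ^ (m' + 1 + 1)
    rw [div_mul_div_cancel₀ S.h_ne]
  have hb : ∀ i : Fin m', algebraMap (LB k (bb f h)) κ (bL k (bb f h) i) =
      aeval y (h i.castSucc.succ) / aeval y (h 0) := by
    intro i
    rw [← hφL, ← hratio i.castSucc.succ (hv.b_mem i)]
    rfl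
  have hz : φ ⟨zz f h, hv.z_mem⟩ = aeval y (h (Fin.last (m' + 1))) / aeval y (h 0) :=
    hratio _ hv.z_mem
  -- the residues of `b` are algebraically independent
  have hindb := setup_ind_b S
  have hbL : AlgebraicIndependent k (bL k (bb f h)) := (isTranscendenceBasis_LB hindb).1
  have hind : AlgebraicIndependent k (fun i : Fin m' =>
      aeval y (h i.castSucc.succ) / aeval y (h 0)) := by
    have h1 := hbL.map' (f := IsScalarTower.toAlgHom k (LB k (bb f h)) κ)
      (algebraMap (LB k (bb f h)) κ).injective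
    have h2 : (IsScalarTower.toAlgHom k (LB k (bb f h)) κ) ∘ bL k (bb f h) =
        fun i : Fin m' => aeval y (h i.castSucc.succ) / aeval y (h 0) := funext hb
    rwa [h2] at h1
  have hsepz : IsSeparable (LB k (bb f h)) (φ ⟨zz f h, hv.z_mem⟩) := by
    rw [hz]
    refine isSeparable_of_range (k := k) _ ?_ (hsep hind)
    have h2 : (fun i : Fin m' => aeval y (h i.castSucc.succ) / aeval y (h 0)) =
      (IsScalarTower.toAlgHom k (LB k (bb f h)) κ) ∘ bL k (bb f h) := (funext hb).symm
    rw [h2, Set.range_comp, ← IntermediateField.adjoin_map]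
    have h3 := xL_adjoin (k := k) (bb f h)
    have h4 : IntermediateField.adjoin k (Set.range (bL k (bb f h))) = ⊤ := by
      rw [eq_top_iff, ← h3, IntermediateField.adjoin_le_iff]
      rintro x (rfl | hx)
      · exact one_mem _
      · exact IntermediateField.subset_adjoin _ _ hx
    rw [h4, AlgHom.fieldRange_eq_map]
  -- finiteness
  have hres21 : TG21.IsRes (F := LB k (bb f h)) v κ φ :=
    ⟨hφ.surj, fun c => ⟨hL c c.2, hφL c⟩⟩
  have hfinκ : FiniteDimensional (LB k (bb f h)) κ := res_finite hv hres21 hfin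
  let M := separableClosure (LB k (bb f h)) κ
  have hMfin : FiniteDimensional (LB k (bb f h)) M := inferInstance
  have hpi : IsPurelyInseparable M κ := separableClosure.isPurelyInseparable _ _
  have hMsep : Algebra.IsSeparable (LB k (bb f h)) M := separableClosure.isSeparable _ _
  have hMt : IsScalarTower k M κ := IsScalarTower.of_algebraMap_eq fun _ => rfl
  have hMt' : IsScalarTower k (LB k (bb f h)) M :=
    IsScalarTower.of_algebraMap_eq fun a => Subtype.ext
      (IsScalarTower.algebraMap_apply k (LB k (bb f h)) κ a)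
  let r : M := ⟨φ ⟨zz f h, hv.z_mem⟩, mem_separableClosure_iff.2 hsepz⟩
  refine ⟨M, inferInstance, inferInstance, r, hMfin, hMsep, ?_, ?_⟩
  · intro v₀ hv₀ N _ _ _ _ _ _ j V' hV'
    have hpow : ∀ x : κ, ∃ q : ℕ, 0 < q ∧ ∃ y : M, algebraMap M κ y = x ^ q := by
      intro x
      obtain ⟨l, hl⟩ := IsPurelyInseparable.pow_mem M (ringExpChar M) x
      obtain ⟨y, hy⟩ := hl
      exact ⟨ringExpChar M ^ l, pow_pos (expChar_pos M (ringExpChar M)) l, y, hy⟩
    have hzd : ZDim k (V'.comap (j : M →+* N)) := by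
      have h1 : ZDim k ((V'.comap (j : M →+* N)).comap (algebraMap (LB k (bb f h)) M)) := by
        have h2 : (V'.comap (j : M →+* N)).comap (algebraMap (LB k (bb f h)) M) = v₀ := by
          rw [← hV']
          ext x
          change j (algebraMap (LB k (bb f h)) M x) ∈ V' ↔ algebraMap (LB k (bb f h)) N x ∈ V'
          rw [j.commutes]
        rw [h2]
        exact hv₀
      exact TG77.zdim_up (F := LB k (bb f h)) h1
    obtain ⟨V, hVz, -, hV⟩ := hdeg M S.closed S.fg S.trdeg S.pos (Nat.le_succ _) L W S.dat.fg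
      S.dat.one S.dat.bir hWm.1 S.W_ne (2 * (m' + 1) + 3) (m' + 1 + 1) f h (by omega) (by omega)
      (by nlinarith) S.good.mem S.hom S.good.bpf S.good.c1 v φ hφ hov hk
      (Or.inr (pdiv_dv S hv)) hpow y a₁ ha₁ hy hsec (xL k (bb f h)) rfl
      (by
        intro i hi
        rcases Fin.eq_zero_or_eq_succ i with rfl | ⟨j, rfl⟩
        · change algebraMap M κ (algebraMap _ M 1) * aeval y (h 0) = aeval y (h 0)
          rw [map_one, map_one, one_mul]
        · rcases Fin.eq_castSucc_or_eq_last j with ⟨l, rfl⟩ | rfl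
          · have h1 : xL k (bb f h) l.castSucc.succ = bL k (bb f h) l := by simp [xL]
            rw [h1, ← IsScalarTower.algebraMap_apply, hb, div_mul_cancel₀ _ hy0]
          · simp at hi)
      (by
        have h3 := (isTranscendenceBasis_LB hindb).lift_cardinalMk_eq_trdeg
        rw [Cardinal.mk_fin, Cardinal.lift_natCast, Cardinal.lift_id'.{0, u}] at h3
        exact h3.symm)
      (by rw [xL_set]; exact xL_adjoin _)
      (PB k (bb f h)) (by rw [xL_set]; exact PB_eq_span _) N j V' hzd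
    have hrel := hV _ le_rfl
    have h1 := r_le (n := m' + 1) S.pos hcl S.dat S.W_le hov hbad (t := 2 * (m' + 1) + 3)
      (s := m' + 1 + 1) (by omega) (by omega) (W' := hx V W) (hx_le V W) (S.x V hVz)
      (by simpa only [Nat.add_sub_cancel] using hrel)
    rw [hV'] at h1
    exact h1
  · have h1 := hres21.minpoly_lt hv.z_mem
    have h2 : minpoly (LB k (bb f h)) r = minpoly (LB k (bb f h)) (φ ⟨zz f h, hv.z_mem⟩) :=
      (minpoly.algebraMap_eq (algebraMap M κ).injective r).symm
    rw [h2]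
    exact h1

/-- **ROW R3.** -/
theorem r3Stmt (hdeg : ∀ (κ M F : Type u) [Field κ] [Algebra k κ] [Field M] [Algebra k M]
      [Algebra M κ] [IsScalarTower k M κ] [Field F] [Algebra k F] [Algebra F M]
      [IsScalarTower k F M] (n d : ℕ), DegStmt k K κ M F n d)
    (h6 : R6Stmt k K) : R3Stmt k K := by
  intro m' p A₀ L c τ c' m q W f h S v hv hL hbad
  have hvD := pdiv_dv S hv
  let i1 : Algebra k (IsLocalRing.ResidueField v) := resAlg hvD.1
  let i2 : Algebra (LB k (bb f h)) (IsLocalRing.ResidueField v) :=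
    ((IsLocalRing.residue v).comp ((algebraMap (LB k (bb f h)) K).codRestrict v.toSubring
      fun x => hL _ x.2)).toAlgebra
  have i3 : IsScalarTower k (LB k (bb f h)) (IsLocalRing.ResidueField v) :=
    IsScalarTower.of_algebraMap_eq fun _ => rfl
  have hφ : IsRes (IsLocalRing.residue v) := by
    refine ⟨IsLocalRing.residue_surjective, fun x => ?_⟩
    rw [IsLocalRing.residue_eq_zero_iff, ValuationSubring.valuation_lt_one_iff]
  obtain ⟨a₁, ha₁, hsec, hsep⟩ := S.secB v hvD hbad
  obtain ⟨-, -, hfin, -⟩ := h6 m' p A₀ L c τ c' m q W f h S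
  refine r3_core (κ := IsLocalRing.ResidueField v) (fun M => hdeg _ M _ _ _) hfin S hv hL hbad hφ
    (fun x => rfl) ha₁ (y := fun a => rs v (f a / f a₁)) (fun a => ?_) hsec hsep
  have h1 : f a / f a₁ ∈ v := ha₁.div _ (S.good.mem a)
  exact ⟨h1, by rw [rs, dif_pos h1]⟩

end Core

end Pool.Agent.TG9
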