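import Pool.Agent.Lib.TG9_h96.Sec
import Pool.Agent.Lib.TG9_h50.Generic

/-!
# TANK G, BC9: row GOOD, the assembly
-/

set_option autoImplicit false

namespace Pool.Agent.TG9

open Pool.Agent.TG (Ov ZDim IsMin IsModel Bir ch chN)
open Pool.Agent.TG15 (Gt Tp hx smulK)
open Module Filter

universe u

variable {k K : Type u} [Field k] [Field K] [Algebra k K]

/-- The condition `Good.peel` for one tuple. -/
def PeelC {n : ℕ} (L : Submodule k K) (c : ℕ) (τ : K) (t : ℕ) (W : Submodule k K)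
    (q : K [⋀^Fin (n + 1)]→ₗ[k] K) (f : Fin (n + 1) → K) : Prop :=
  ∀ V : ValuationSubring K, ZDim k V → ∀ g : Fin (n + 1) → K,
    (∀ j, g j ∈ (hx V W * L) ^ t) → ∀ v : ValuationSubring K, Dv n (hx V W * L) v →
      v.valuation (q g) ≤ v.valuation (q f) ∨ (¬ Tp L c τ W v ∧ ∃ w ∈ hx V W, IsMin v W w)

/-- ROW PEEL (helper65). -/
def PeelStmt (k K : Type u) [Field k] [Field K] [Algebra k K] (n p : ℕ) : Prop :=
  IsAlgClosed k → CharP k p → p.Prime →
  (⊤ : IntermediateField k K).FG → Algebra.trdeg k K = n → 0 < n →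
    ∀ (L : Submodule k K) (c : ℕ) (τ : K) (c' : ℕ) (q : K [⋀^Fin (n + 1)]→ₗ[k] K),
    Dat k n L c τ c' q → ∀ t : ℕ, 2 * n + 3 ≤ t → t < p → ∀ m : ℕ, ∀ W ≤ L ^ m, W ≠ ⊥ →
      ∀ (s : ℕ) (b : Fin s → K), LinearIndependent k b →
        Submodule.span k (Set.range b) = (W * L) ^ t →
        ∃ S : Set k, S.Countable ∧ ∀ k₁ : Subfield k, S ⊆ k₁ → ∀ u : Fin (n + 1) × Fin s → k,
          AlgebraicIndependent k₁ u → PeelC L (c + m) τ t W q (gtup b u)

/-- A nonzero subspace of a finite dimensional one is a model. -/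
theorem isModel_of_le {P Q : Submodule k K} (hQ : Q.FG) (hle : P ≤ Q) (hP : P ≠ ⊥) :
    IsModel P := by
  have : Module.Finite k Q := Module.Finite.iff_fg.2 hQ
  have : Module.Finite k P := Submodule.finiteDimensional_of_le hle
  exact ⟨Module.Finite.iff_fg.1 this, hP⟩

theorem goodStmt (hcl : ClStmt k K) {n p : ℕ} (hpeel : PeelStmt k K n p) :
    GoodStmt k K n p := by
  classical
  intro hk hchar hp hbig hfg htr hn L c τ c' q hd t ht htp m W hWL hW
  have hLne : L ≠ ⊥ := fun h => one_ne_zero ((Submodule.mem_bot k).1 (h ▸ hd.one))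
  have hLm : IsModel L := ⟨hd.fg, hLne⟩
  have hWm : IsModel W := isModel_of_le (hd.fg.pow m) hWL hW
  have hHfg : (W * L).FG := hWm.1.mul hd.fg
  have hHt : ((W * L) ^ t).FG := hHfg.pow t
  -- the basis
  have : Module.Finite k ((W * L) ^ t : Submodule k K) := Module.Finite.iff_fg.2 hHt
  let B := Module.finBasis k ((W * L) ^ t : Submodule k K)
  set s := finrank k ((W * L) ^ t : Submodule k K) with hs
  let b : Fin s → K := fun i => (B i : K)
  have hlin : LinearIndependent k b :=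
    B.linearIndependent.map' (Submodule.subtype _) (Submodule.ker_subtype _)
  have hspan : Submodule.span k (Set.range b) = (W * L) ^ t := by
    have h1 : Set.range b = (Submodule.subtype ((W * L) ^ t : Submodule k K)) '' Set.range B := by
      rw [← Set.range_comp]
      rfl
    rw [h1, ← Submodule.map_span, B.span_eq, Submodule.map_top, Submodule.range_subtype]
  -- the transcendence basis
  obtain ⟨X, hX⟩ := exists_isTranscendenceBasis k K
  have hXc : X.encard ≤ n := by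
    rw [← Set.toENat_cardinalMk, hX.cardinalMk_eq_trdeg, htr]
    simp
  have hcl' : ∀ i, IsAlgebraic (Algebra.adjoin k X) (b i) := by
    intro i
    have := hX.isAlgebraic
    rw [Subtype.range_coe] at this
    exact this.1 (b i)
  obtain ⟨S₁, hS₁, hS₁F⟩ := cl_def_family b hcl'
  obtain ⟨S₂, hS₂, hS₂F⟩ := generic_max (hcl hk hfg).1 q hd.fg hHfg (m + 1) t b hspan
    (hd.exists_ne hW (by omega))
  obtain ⟨S₃, hS₃, hS₃F⟩ := hpeel hk hchar hp hfg htr hn L c τ c' q hd t ht htp m W hWL hW s b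
    hlin hspan
  obtain ⟨x, hx⟩ := hbig (S₁ ∪ (S₂ ∪ S₃)) (hS₁.countable.union (hS₂.union hS₃))
  let e : Fin (n + 1) × Fin s ≃ Fin ((n + 1) * s) := finProdFinEquiv
  let u : Fin (n + 1) × Fin s → k := fun p => x (e p : ℕ)
  have hu : AlgebraicIndependent (Subfield.closure (S₁ ∪ (S₂ ∪ S₃))) u :=
    hx.comp (fun p => (e p : ℕ)) fun p q hpq => e.injective (Fin.ext hpq)
  have hsub : S₁ ∪ (S₂ ∪ S₃) ⊆ (Subfield.closure (S₁ ∪ (S₂ ∪ S₃)) : Set k) :=
    Subfield.subset_closure
  obtain ⟨hmem, hne, hmax⟩ := hS₂F _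
    ((Set.subset_union_left.trans Set.subset_union_right).trans hsub) u hu
  obtain ⟨hbpf, hc1⟩ := bpf_c1 (k₁ := Subfield.closure (S₁ ∪ (S₂ ∪ S₃))) hn hXc hLm hWm
    (t := t) (by omega) b (hS₁F _ (Set.subset_union_left.trans hsub)) hlin hspan
    (fun i a => u (i, a)) hu
  exact ⟨gtup b u, hmem, hne, hbpf, hmax, hc1, hS₃F _
    ((Set.subset_union_right.trans Set.subset_union_right).trans hsub) u hu⟩

end Pool.Agent.TG9
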