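import Pool.Agent.Lib.TG9_h96.Pt
import Pool.Agent.Lib.TG9.Defs

/-!
# TANK G, BC9: `Good.bpf` and `Good.c1` for generic tuples; fields of definition
-/

set_option autoImplicit false

namespace Pool.Agent.TG9

open Pool.Agent.TG
open Pool.Agent.TG15 (Gt Tp hx smulK)

universe u

variable {k₁ k K : Type u} [Field k₁] [Field k] [Field K] [Algebra k₁ k] [Algebra k K]
  [Algebra k₁ K] [IsScalarTower k₁ k K]

/-- The elements `g ^ (t - r) * z ^ r`: their values. -/
theorem val_steps {V : ValuationSubring K} {g z : K} (hg : g ≠ 0) (hz : z ≠ 0)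
    (hzg : V.valuation z < V.valuation g) {t n : ℕ} (ht : n + 1 ≤ t) :
    (∀ j : Fin (n + 2), g ^ (t - (j : ℕ)) * z ^ (j : ℕ) ≠ 0) ∧
    ∀ i j : Fin (n + 2), i < j → V.valuation (g ^ (t - (j : ℕ)) * z ^ (j : ℕ)) <
      V.valuation (g ^ (t - (i : ℕ)) * z ^ (i : ℕ)) := by
  have hvg : (0 : V.ValueGroup) < V.valuation g := by
    rw [zero_lt_iff, Valuation.ne_zero_iff]
    exact hg
  have hvz : (0 : V.ValueGroup) < V.valuation z := by
    rw [zero_lt_iff, Valuation.ne_zero_iff]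
    exact hz
  refine ⟨fun j => mul_ne_zero (pow_ne_zero _ hg) (pow_ne_zero _ hz), fun i j hij => ?_⟩
  have hj : (j : ℕ) ≤ t := by
    have := j.isLt
    omega
  have hij' : (i : ℕ) < j := hij
  obtain ⟨d, hd⟩ : ∃ d, (j : ℕ) = i + (d + 1) := ⟨j - i - 1, by omega⟩
  have h1 : g ^ (t - (j : ℕ)) * z ^ (j : ℕ) = (g ^ (t - (j : ℕ)) * z ^ (i : ℕ)) * z ^ (d + 1) := by
    rw [mul_assoc, ← pow_add, ← hd]
  have h2 : g ^ (t - (i : ℕ)) * z ^ (i : ℕ) = (g ^ (t - (j : ℕ)) * z ^ (i : ℕ)) * g ^ (d + 1) := by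
    have h3 : t - (i : ℕ) = (t - (j : ℕ)) + (d + 1) := by omega
    rw [h3, pow_add]
    ring
  rw [h1, h2, map_mul, map_mul V.valuation (g ^ (t - (j : ℕ)) * z ^ (i : ℕ)) (g ^ (d + 1))]
  refine mul_lt_mul_of_pos_left ?_ ?_
  · rw [map_pow, map_pow]
    exact pow_lt_pow_left₀ hzg zero_le (Nat.succ_ne_zero d)
  · rw [map_mul, map_pow, map_pow]
    exact mul_pos (pow_pos hvg _) (pow_pos hvz _)

/-- One point: for `z` with `v(z) < v(g)`, `g` minimal in `H`, `S = H ^ t`. -/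
theorem c1_pt {V : ValuationSubring K} (hV : ZDim k V) {n : ℕ} (hn : 0 < n) {X : Set K}
    (hX : X.encard ≤ n) {H : Submodule k K} {t : ℕ} (ht : n + 1 ≤ t)
    {s : ℕ} (b : Fin s → K) (hb : ∀ a, b a ∈ TGCh.cl k₁ X) (hlin : LinearIndependent k b)
    (hspan : Submodule.span k (Set.range b) = H ^ t) (u : Fin (n + 1) → Fin s → k)
    (hu : AlgebraicIndependent k₁ (fun p : Fin (n + 1) × Fin s => u p.1 p.2))
    {g : K} (hg : IsMin V H g) :
    (∃ j, IsMin V (H ^ t) (∑ a, u j a • b a)) ∧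
    ∀ j₀, IsMin V (H ^ t) (∑ a, u j₀ a • b a) → ∀ z ∈ H, V.valuation z < V.valuation g →
      ∃ (i : Fin (n + 1)) (γ : k),
        V.valuation ((∑ a, u i a • b a) / (∑ a, u j₀ a • b a) - algebraMap k K γ) < 1 ∧
        V.valuation (z / g) ^ (n + 1) ≤
          V.valuation ((∑ a, u i a • b a) / (∑ a, u j₀ a • b a) - algebraMap k K γ) := by
  have hgt : IsMin V (H ^ t) (g ^ t) := hg.pow hV.ov t
  have hs : 0 < s := by
    rcases Nat.eq_zero_or_pos s with rfl | h
    · exfalso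
      have h0 : (H ^ t : Submodule k K) = ⊥ := by
        rw [← hspan, Set.range_eq_empty, Submodule.span_empty]
      have h1 := hgt.mem
      rw [h0, Submodule.mem_bot] at h1
      exact hgt.ne h1
    · exact h
  obtain ⟨h1, h2⟩ := TGCh.chain_pt hV hn hX b hb hlin hs u hu
  rw [hspan] at h1 h2
  refine ⟨h1, fun j₀ hj₀ z hz hzg => ?_⟩
  rcases eq_or_ne z 0 with rfl | hz0
  · refine ⟨j₀, 1, ?_, ?_⟩
    · rw [div_self hj₀.ne, map_one, sub_self, map_zero]
      exact zero_lt_one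
    · rw [zero_div, map_zero, zero_pow (Nat.succ_ne_zero n)]
      exact zero_le
  obtain ⟨i, γ, h3, h4⟩ := h2 j₀ hj₀
  refine ⟨i, γ, h3, ?_⟩
  obtain ⟨h5, h6⟩ := val_steps (V := V) hg.ne hz0 hzg ht
  have h7 := h4 (fun j => g ^ (t - (j : ℕ)) * z ^ (j : ℕ)) (fun j => by
    have hj : (j : ℕ) ≤ t := by
      have := j.isLt
      omega
    have h8 : (H ^ t : Submodule k K) = H ^ (t - (j : ℕ)) * H ^ (j : ℕ) := by
      rw [← pow_add, Nat.sub_add_cancel hj]
    rw [h8]
    exact Submodule.mul_mem_mul (Submodule.pow_mem_pow _ hg.mem _)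
      (Submodule.pow_mem_pow _ hz _)) h5 h6
  refine le_trans (le_of_eq ?_) h7
  -- the value of `g ^ (t - n - 1) z ^ (n + 1) / f j₀`
  have h9 : V.valuation (∑ a, u j₀ a • b a) = V.valuation (g ^ t) := by
    have h := val_div_eq_one hgt hj₀
    rw [map_div₀, div_eq_one_iff_eq (by rw [Valuation.ne_zero_iff]; exact hgt.ne)] at h
    exact h
  have h10 : (z / g) ^ (n + 1) = (g ^ (t - (n + 1)) * z ^ (n + 1)) / g ^ t := by
    have hg0 := hg.ne
    obtain ⟨d, rfl⟩ : ∃ d, t = d + (n + 1) := ⟨t - (n + 1), by omega⟩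
    rw [Nat.add_sub_cancel, div_pow, pow_add g d (n + 1), mul_div_mul_left _ _ (pow_ne_zero d hg0)]
  rw [← map_pow, h10, map_div₀, map_div₀, h9, Fin.val_last]

/-- `Good.bpf` and `Good.c1` for generic tuples. -/
theorem bpf_c1 [IsAlgClosed k] {n : ℕ} (hn : 0 < n) {X : Set K} (hX : X.encard ≤ n)
    {L W : Submodule k K} (hL : IsModel L) (hW : IsModel W) {t : ℕ} (ht : n + 1 ≤ t)
    {s : ℕ} (b : Fin s → K) (hb : ∀ a, b a ∈ TGCh.cl k₁ X) (hlin : LinearIndependent k b)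
    (hspan : Submodule.span k (Set.range b) = (W * L) ^ t) (u : Fin (n + 1) → Fin s → k)
    (hu : AlgebraicIndependent k₁ (fun p : Fin (n + 1) × Fin s => u p.1 p.2)) :
    (∀ V : ValuationSubring K, Ov k V → ∃ j, IsMin V ((W * L) ^ t) (∑ a, u j a • b a)) ∧
    ∀ V : ValuationSubring K, ZDim k V → ∀ (j₀ : Fin (n + 1)),
      IsMin V ((W * L) ^ t) (∑ a, u j₀ a • b a) →
      ∀ w, IsMin V W w → ∀ z ∈ hx V W, ∃ (i : Fin (n + 1)) (a : k),
        V.valuation ((∑ a, u i a • b a) / (∑ a, u j₀ a • b a) - algebraMap k K a) < 1 ∧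
        V.valuation (z / w) ^ (n + 1) ≤
          V.valuation ((∑ a, u i a • b a) / (∑ a, u j₀ a • b a) - algebraMap k K a) := by
  constructor
  · intro V hV
    obtain ⟨V', hle, hV'⟩ := zdim_le_of_ov V hV
    obtain ⟨l, hl⟩ := exists_isMin hV'.ov hL
    obtain ⟨w, hw⟩ := exists_isMin hV'.ov hW
    obtain ⟨⟨j, hj⟩, -⟩ := c1_pt hV' hn hX ht b hb hlin hspan u hu (hw.mul hl)
    exact ⟨j, hj.of_le hle⟩
  · intro V hV j₀ hj₀ w hw z hz
    obtain ⟨l, hl⟩ := exists_isMin hV.ov hL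
    obtain ⟨-, h1⟩ := c1_pt hV hn hX ht b hb hlin hspan u hu (hw.mul hl)
    have hz1 : z ∈ W := hz.1
    have hz2 : Gt V z W := hz.2
    have hvl : (0 : V.ValueGroup) < V.valuation l := by
      rw [zero_lt_iff, Valuation.ne_zero_iff]
      exact hl.ne
    have hvw : (0 : V.ValueGroup) < V.valuation w := by
      rw [zero_lt_iff, Valuation.ne_zero_iff]
      exact hw.ne
    have hlt : V.valuation (z * l) < V.valuation (w * l) := by
      rw [map_mul, map_mul]
      refine mul_lt_mul_of_pos_right ?_ hvl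
      rcases hz2 with rfl | ⟨y, hy, hzy⟩
      · rw [map_zero]
        exact hvw
      · refine hzy.trans_le ?_
        have h2 := hw.div y hy
        rw [← V.valuation_le_one_iff, map_div₀, div_le_one₀ hvw] at h2
        exact h2
    obtain ⟨i, γ, h3, h4⟩ := h1 j₀ hj₀ (z * l) (Submodule.mul_mem_mul hz1 hl.mem) hlt
    refine ⟨i, γ, h3, ?_⟩
    rwa [mul_div_mul_right _ _ hl.ne] at h4

/-! ### Fields of definition -/

section FieldOfDef

variable {k K : Type u} [Field k] [Field K] [Algebra k K]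

/-- An element of `k[X]` lies in `F[X]` for every subfield `F` containing a suitable finite set. -/
theorem adjoin_def {X : Set K} {r : K} (hr : r ∈ Algebra.adjoin k X) :
    ∃ S₀ : Set k, S₀.Finite ∧ ∀ F : Subfield k, S₀ ⊆ F → r ∈ Algebra.adjoin F X := by
  induction hr using Algebra.adjoin_induction with
  | mem x hx => exact ⟨∅, Set.finite_empty, fun F _ => Algebra.subset_adjoin hx⟩
  | algebraMap c =>
    refine ⟨{c}, Set.finite_singleton c, fun F hF => ?_⟩
    have hc : c ∈ F := hF rfl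
    exact (Algebra.adjoin F X).algebraMap_mem (⟨c, hc⟩ : F)
  | add x y _ _ hx hy =>
    obtain ⟨S, hS, h1⟩ := hx
    obtain ⟨T, hT, h2⟩ := hy
    exact ⟨S ∪ T, hS.union hT, fun F hF => add_mem (h1 F (Set.subset_union_left.trans hF))
      (h2 F (Set.subset_union_right.trans hF))⟩
  | mul x y _ _ hx hy =>
    obtain ⟨S, hS, h1⟩ := hx
    obtain ⟨T, hT, h2⟩ := hy
    exact ⟨S ∪ T, hS.union hT, fun F hF => mul_mem (h1 F (Set.subset_union_left.trans hF))
      (h2 F (Set.subset_union_right.trans hF))⟩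

/-- An element algebraic over `k(X)` is algebraic over `F(X)` for every subfield `F` containing a
suitable finite set. -/
theorem cl_def {X : Set K} {x : K} (hx : IsAlgebraic (Algebra.adjoin k X) x) :
    ∃ S₀ : Set k, S₀.Finite ∧ ∀ F : Subfield k, S₀ ⊆ F → x ∈ TGCh.cl F X := by
  classical
  obtain ⟨P, hP, hPx⟩ := hx
  have h1 : ∀ i, ∃ S₀ : Set k, S₀.Finite ∧ ∀ F : Subfield k, S₀ ⊆ F →
      (P.coeff i : K) ∈ Algebra.adjoin F X := fun i => adjoin_def (P.coeff i).2
  choose S hSf hS using h1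
  refine ⟨⋃ i ∈ P.support, S i, Set.Finite.biUnion (Finset.finite_toSet _) fun i _ => hSf i,
    fun F hF => ?_⟩
  rw [TGCh.mem_cl_iff]
  have hinjR : Function.Injective (algebraMap (Algebra.adjoin k X) K) := Subtype.val_injective
  have h2 : P.map (algebraMap (Algebra.adjoin k X) K) ∈
      Polynomial.lifts (algebraMap (Algebra.adjoin F X) K) := by
    rw [Polynomial.lifts_iff_coeff_lifts]
    intro i
    rw [Polynomial.coeff_map]
    by_cases hi : i ∈ P.support
    · have h3 : ((P.coeff i : Algebra.adjoin k X) : K) ∈ Algebra.adjoin F X :=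
        hS i F ((Set.subset_iUnion₂ (s := fun i (_ : i ∈ P.support) => S i) i hi).trans hF)
      exact ⟨⟨_, h3⟩, rfl⟩
    · rw [Polynomial.notMem_support_iff.1 hi, map_zero]
      exact ⟨0, map_zero _⟩
  obtain ⟨Q, hQ⟩ := (Polynomial.mem_lifts _).1 h2
  refine ⟨Q, ?_, ?_⟩
  · rintro rfl
    rw [Polynomial.map_zero] at hQ
    exact hP ((Polynomial.map_eq_zero_iff hinjR).1 hQ.symm)
  · rw [Polynomial.aeval_def, ← Polynomial.eval_map, hQ, Polynomial.eval_map,
      ← Polynomial.aeval_def]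
    exact hPx

/-- Finite families. -/
theorem cl_def_family {ι : Type*} [Finite ι] {X : Set K} (b : ι → K)
    (hb : ∀ a, IsAlgebraic (Algebra.adjoin k X) (b a)) :
    ∃ S₀ : Set k, S₀.Finite ∧ ∀ F : Subfield k, S₀ ⊆ F → ∀ a, b a ∈ TGCh.cl F X := by
  choose S hSf hS using fun a => cl_def (hb a)
  exact ⟨⋃ a, S a, Set.finite_iUnion hSf, fun F hF a =>
    hS a F ((Set.subset_iUnion S a).trans hF)⟩

end FieldOfDef

end Pool.Agent.TG9
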