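import Pool.Agent.Lib.TG_h96.Chain
import Pool.Agent.Lib.TG.Cpt

/-!
# TANK G, BC9: consequences of the chain lemma at one point

`f i = ∑ u i a b a` generic elements of `S = span b`: at every zero-dimensional `V` some `f j₀` is
minimal, and for `n + 2` elements `z` of `S` with decreasing values some `f i / f j₀ - γ` is at
least as large as the last one.
-/

set_option autoImplicit false

namespace Pool.Agent.TGCh

open Pool.Agent.TG AlgebraicIndependent

universe u

variable {k₁ k K : Type u} [Field k₁] [Field k] [Field K] [Algebra k₁ k] [Algebra k K]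
  [Algebra k₁ K] [IsScalarTower k₁ k K] {V : ValuationSubring K}

theorem val_const_le (hV : Ov k V) (c : k) : V.valuation (algebraMap k K c) ≤ 1 :=
  (V.valuation_le_one_iff _).2 (hV c)

theorem val_smul_le (hV : Ov k V) (c : k) (x : K) : V.valuation (c • x) ≤ V.valuation x := by
  rw [Algebra.smul_def, map_mul]
  exact mul_le_of_le_one_left zero_le (val_const_le hV c)

theorem val_smul_eq (hV : Ov k V) {c : k} (hc : c ≠ 0) (x : K) :
    V.valuation (c • x) = V.valuation x := by
  rw [Algebra.smul_def, map_mul, val_const' hV hc, one_mul]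

/-- A linear combination of elements with decreasing values: its value is the value of the first
element with coefficient different from zero. -/
theorem val_comb (hV : Ov k V) {m : ℕ} {z : Fin m → K} (hz0 : ∀ j, z j ≠ 0)
    (hz : ∀ i j, i < j → V.valuation (z j) < V.valuation (z i)) {c : Fin m → k} (hc : c ≠ 0) :
    ∃ j, c j ≠ 0 ∧ V.valuation (∑ i, c i • z i) = V.valuation (z j) := by
  classical
  have hne : (Finset.univ.filter fun j => c j ≠ 0).Nonempty := by
    obtain ⟨j, hj⟩ := Function.ne_iff.1 hc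
    exact ⟨j, Finset.mem_filter.2 ⟨Finset.mem_univ _, hj⟩⟩
  let j := (Finset.univ.filter fun j => c j ≠ 0).min' hne
  have hj : c j ≠ 0 := (Finset.mem_filter.1 (Finset.min'_mem _ hne)).2
  have hmin : ∀ i, c i ≠ 0 → j ≤ i := fun i hi => by
    have hi' : i ∈ Finset.univ.filter fun j => c j ≠ 0 :=
      Finset.mem_filter.2 ⟨Finset.mem_univ _, hi⟩
    exact Finset.min'_le _ _ hi'
  refine ⟨j, hj, ?_⟩
  have hvj : V.valuation (z j) ≠ 0 := by
    rw [Valuation.ne_zero_iff]
    exact hz0 j
  rw [← Finset.add_sum_erase _ _ (Finset.mem_univ j)]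
  have h1 : V.valuation (∑ i ∈ Finset.univ.erase j, c i • z i) < V.valuation (c j • z j) := by
    rw [val_smul_eq hV hj]
    refine Valuation.map_sum_lt _ hvj fun i hi => ?_
    rcases eq_or_ne (c i) 0 with h | h
    · rw [h, zero_smul, map_zero]
      exact zero_lt_iff.2 hvj
    · exact (val_smul_le hV _ _).trans_lt
        (hz j i (lt_of_le_of_ne (hmin i h) (Finset.ne_of_mem_erase hi).symm))
  rw [Valuation.map_add_eq_of_lt_left _ h1, val_smul_eq hV hj]

/-- The consequence of the chain lemma in terms of values. -/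
theorem chain_val (hV : ZDim k V) {n : ℕ} (hn : 0 < n) {X : Set K} (hX : X.encard ≤ n)
    {s : ℕ} (b : Fin s → K) (hb : ∀ a, b a ∈ cl k₁ X) (hlin : LinearIndependent k b)
    (hs : 0 < s) (u : Fin (n + 1) → Fin s → k)
    (hu : AlgebraicIndependent k₁ (fun p : Fin (n + 1) × Fin s => u p.1 p.2)) :
    ∃ (i₀ : Fin (n + 1)) (lam : Fin (n + 1) → k),
      IsMin V (Submodule.span k (Set.range b)) (∑ a, u i₀ a • b a) ∧
      (∀ i, i ≠ i₀ → V.valuation ((∑ a, u i a • b a) - lam i • ∑ a, u i₀ a • b a) <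
        V.valuation (∑ a, u i₀ a • b a)) ∧
      ∃ i, i ≠ i₀ ∧ ∀ z : Fin (n + 2) → K, (∀ j, z j ∈ Submodule.span k (Set.range b)) →
        (∀ j, z j ≠ 0) → (∀ i j, i < j → V.valuation (z j) < V.valuation (z i)) →
        V.valuation (z (Fin.last (n + 1))) ≤
          V.valuation ((∑ a, u i a • b a) - lam i • ∑ a, u i₀ a • b a) := by
  classical
  obtain ⟨i₀, lam, h1, h2, h3, i, hi, h4⟩ := chain hV hn hX b hb hlin hs u hu
  refine ⟨i₀, lam, ⟨?_, h2, fun g hg => ?_⟩, h3, i, hi, fun z hzS hz0 hz => ?_⟩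
  · exact Submodule.sum_mem _ fun a _ =>
      Submodule.smul_mem _ _ (Submodule.subset_span ⟨a, rfl⟩)
  · rw [← V.valuation_le_one_iff, map_div₀]
    exact div_le_one_of_le₀ (h1 g hg) zero_le
  by_contra hlt
  rw [not_le] at hlt
  set h := (∑ a, u i a • b a) - lam i • ∑ a, u i₀ a • b a with hh
  set S := Submodule.span k (Set.range b) with hS
  have hSfin : FiniteDimensional k S := FiniteDimensional.span_of_finite k (Set.finite_range b)
  have hlinz : LinearIndependent k z := by
    rw [Fintype.linearIndependent_iff]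
    intro c hc
    by_contra hne
    have hc0 : c ≠ 0 := fun h => hne fun i => by rw [h]; rfl
    obtain ⟨j, -, hj⟩ := val_comb hV.ov hz0 hz hc0
    rw [hc, map_zero] at hj
    exact hz0 j ((Valuation.zero_iff _).1 hj.symm)
  have hA : Submodule.span k (Set.range z) ≤ S := by
    rw [Submodule.span_le]
    rintro _ ⟨j, rfl⟩
    exact hzS j
  have hdisj : Submodule.span k (Set.range z) ⊓ (S ⊓ leV hV.ov h) = ⊥ := by
    rw [eq_bot_iff]
    intro x hx
    obtain ⟨hx1, hx2⟩ := Submodule.mem_inf.1 hx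
    have hx3 := mem_leV.1 (Submodule.mem_inf.1 hx2).2
    obtain ⟨c, rfl⟩ := (Submodule.mem_span_range_iff_exists_fun k).1 hx1
    rcases eq_or_ne c 0 with rfl | hc
    · rw [Submodule.mem_bot]
      exact Finset.sum_eq_zero fun i _ => zero_smul _ _
    exfalso
    obtain ⟨j, -, hj⟩ := val_comb hV.ov hz0 hz hc
    rw [hj] at hx3
    have h5 : V.valuation (z (Fin.last (n + 1))) ≤ V.valuation (z j) := by
      rcases (Fin.le_last j).eq_or_lt with h | h
      · rw [← h]
      · exact (hz _ _ h).le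
    exact absurd (h5.trans hx3) (not_le.2 hlt)
  have hfr : Module.finrank k (Submodule.span k (Set.range z)) = n + 2 := by
    rw [finrank_span_eq_card hlinz, Fintype.card_fin]
  have hfrS : Module.finrank k S = s := by
    rw [hS, finrank_span_eq_card hlin, Fintype.card_fin]
  have hf1 : FiniteDimensional k (Submodule.span k (Set.range z)) :=
    FiniteDimensional.span_of_finite k (Set.finite_range z)
  have hf2 : FiniteDimensional k (S ⊓ leV hV.ov h : Submodule k K) :=
    Submodule.finiteDimensional_of_le (inf_le_left : S ⊓ leV hV.ov h ≤ S)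
  have h6 := Submodule.finrank_sup_add_finrank_inf_eq (Submodule.span k (Set.range z))
    (S ⊓ leV hV.ov h)
  rw [hdisj, finrank_bot, add_zero, hfr] at h6
  have h7 : Module.finrank k (Submodule.span k (Set.range z) ⊔ (S ⊓ leV hV.ov h) :
      Submodule k K) ≤ Module.finrank k S :=
    Submodule.finrank_mono (sup_le hA inf_le_left)
  omega

/-- The same relative to an arbitrary minimal `f j₀`. -/
theorem chain_pt (hV : ZDim k V) {n : ℕ} (hn : 0 < n) {X : Set K} (hX : X.encard ≤ n)
    {s : ℕ} (b : Fin s → K) (hb : ∀ a, b a ∈ cl k₁ X) (hlin : LinearIndependent k b)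
    (hs : 0 < s) (u : Fin (n + 1) → Fin s → k)
    (hu : AlgebraicIndependent k₁ (fun p : Fin (n + 1) × Fin s => u p.1 p.2)) :
    (∃ i₀, IsMin V (Submodule.span k (Set.range b)) (∑ a, u i₀ a • b a)) ∧
    ∀ j₀, IsMin V (Submodule.span k (Set.range b)) (∑ a, u j₀ a • b a) →
      ∃ (i : Fin (n + 1)) (γ : k),
        V.valuation ((∑ a, u i a • b a) / (∑ a, u j₀ a • b a) - algebraMap k K γ) < 1 ∧
        ∀ z : Fin (n + 2) → K, (∀ j, z j ∈ Submodule.span k (Set.range b)) →
        (∀ j, z j ≠ 0) → (∀ i j, i < j → V.valuation (z j) < V.valuation (z i)) →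
        V.valuation (z (Fin.last (n + 1)) / ∑ a, u j₀ a • b a) ≤
          V.valuation ((∑ a, u i a • b a) / (∑ a, u j₀ a • b a) - algebraMap k K γ) := by
  classical
  obtain ⟨i₀, lam, h1, h2, i, hi, h3⟩ := chain_val hV hn hX b hb hlin hs u hu
  refine ⟨⟨i₀, h1⟩, fun j₀ hj₀ => ?_⟩
  set f : Fin (n + 1) → K := fun j => ∑ a, u j a • b a with hf
  change IsMin V _ (f i₀) at h1
  change ∀ i, i ≠ i₀ → V.valuation (f i - lam i • f i₀) < V.valuation (f i₀) at h2
  change IsMin V _ (f j₀) at hj₀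
  change ∀ z : Fin (n + 2) → K, _ → _ → _ → _ ≤ V.valuation (f i - lam i • f i₀) at h3
  have hj0 : f j₀ ≠ 0 := hj₀.ne
  have hvj : V.valuation (f j₀) ≠ 0 := by
    rw [Valuation.ne_zero_iff]
    exact hj0
  have hi0 : f i₀ ≠ 0 := h1.ne
  have hveq : V.valuation (f j₀) = V.valuation (f i₀) := by
    have h := val_div_eq_one h1 hj₀
    rw [map_div₀, div_eq_one_iff_eq (by rw [Valuation.ne_zero_iff]; exact hi0)] at h
    exact h
  -- it is enough to find `i`, `γ` with numerators
  suffices H : ∃ (i' : Fin (n + 1)) (γ : k), V.valuation (f i' - γ • f j₀) < V.valuation (f j₀) ∧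
      V.valuation (f i - lam i • f i₀) ≤ V.valuation (f i' - γ • f j₀) by
    obtain ⟨i', γ, h4, h5⟩ := H
    have h6 : f i' / f j₀ - algebraMap k K γ = (f i' - γ • f j₀) / f j₀ := by
      rw [sub_div, Algebra.smul_def, mul_div_cancel_right₀ _ hj0]
    refine ⟨i', γ, ?_, fun z hz1 hz2 hz3 => ?_⟩
    · change V.valuation (f i' / f j₀ - algebraMap k K γ) < 1
      rw [h6, map_div₀]
      exact (div_lt_one₀ (zero_lt_iff.2 hvj)).2 h4
    · change V.valuation (z (Fin.last (n + 1)) / f j₀) ≤
        V.valuation (f i' / f j₀ - algebraMap k K γ)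
      rw [h6, map_div₀, map_div₀]
      exact div_le_div_of_nonneg_right ((h3 z hz1 hz2 hz3).trans h5) zero_le
  rcases eq_or_ne j₀ i₀ with rfl | hji
  · exact ⟨i, lam i, h2 i hi, le_rfl⟩
  -- `lam j₀ ≠ 0`
  have hlj : lam j₀ ≠ 0 := by
    intro h
    have h4 := h2 j₀ hji
    rw [h, zero_smul, sub_zero, hveq] at h4
    exact lt_irrefl _ h4
  -- first case: the difference for `j₀` is large
  have hfirst : f i₀ - (lam j₀)⁻¹ • f j₀ = -((lam j₀)⁻¹ • (f j₀ - lam j₀ • f i₀)) := by
    rw [smul_sub, smul_smul, inv_mul_cancel₀ hlj, one_smul, neg_sub]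
  have hfv : V.valuation (f i₀ - (lam j₀)⁻¹ • f j₀) = V.valuation (f j₀ - lam j₀ • f i₀) := by
    rw [hfirst, Valuation.map_neg, val_smul_eq hV.ov (inv_ne_zero hlj)]
  rcases le_or_gt (V.valuation (f i - lam i • f i₀)) (V.valuation (f j₀ - lam j₀ • f i₀))
    with h4 | h4
  · refine ⟨i₀, (lam j₀)⁻¹, ?_, ?_⟩
    · rw [hfv, hveq]
      exact h2 j₀ hji
    · rw [hfv]
      exact h4
  · have h5 : f i - (lam i * (lam j₀)⁻¹) • f j₀ = (f i - lam i • f i₀) -
        (lam i * (lam j₀)⁻¹) • (f j₀ - lam j₀ • f i₀) := by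
      rw [smul_sub, smul_smul, mul_assoc, inv_mul_cancel₀ hlj, mul_one]
      abel
    have h6 : V.valuation (f i - (lam i * (lam j₀)⁻¹) • f j₀) =
        V.valuation (f i - lam i • f i₀) := by
      rw [h5]
      exact Valuation.map_sub_eq_of_lt_left _ ((val_smul_le hV.ov _ _).trans_lt h4)
    refine ⟨i, lam i * (lam j₀)⁻¹, ?_, ?_⟩
    · rw [h6, hveq]
      exact h2 i hi
    · rw [h6]

end Pool.Agent.TGCh
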