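import Pool.Agent.Lib.TG9.Defs4
import Pool.Agent.Lib.TG9_h63.X
import Pool.Agent.Lib.TG9.Num9

/-!
# TANK G, BC9, row R3: bad divisors, the numerical part
-/

set_option autoImplicit false

namespace Pool.Agent.TG9

open Pool.Agent.TG (Ov ZDim IsMin IsModel Bir ch chN LB KB PB PP PDiv RV stab LDeg ProjP)
open Pool.Agent.LU2 (locV)
open Pool.Agent.TG15 (Gt Tp hx smulK)
open Module Filter

universe u

variable {k K : Type u} [Field k] [Field K] [Algebra k K]

/-- Elements of the kernel of the Jacobian part vanish at `v` if `v (q f) < 1` and `v` is not in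
the boundary. -/
theorem gt_of_mem_rm {n : ℕ} {L : Submodule k K} {c : ℕ} {τ : K} {c' : ℕ}
    {q : K [⋀^Fin (n + 1)]→ₗ[k] K} (hD : Dat k n L c τ c' q) {m : ℕ} {W : Submodule k K}
    (hWm : W ≤ L ^ m) {v : ValuationSubring K} (hv : Ov k v) (hT : ¬ Tp L (c + m) τ W v)
    {Q : K} (hQ : v.valuation Q < 1) (M t i : ℕ) {a : K} (ha : a ∈ rm L (W * L) M t i Q) :
    Gt v a ((W * L) ^ (t * i)) := by
  obtain ⟨hL, w, hw, hw1⟩ := val_of_not_Tp hD hWm hv hT
  obtain ⟨-, ha2⟩ := Submodule.mem_inf.1 ha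
  obtain ⟨b, hb, rfl⟩ := (Submodule.mem_map).1 ha2
  change Gt v (Q * b) _
  have hb1 : v.valuation b ≤ 1 := by
    rcases hb v hv with rfl | ⟨y, hy, hby⟩
    · rw [map_zero]
      exact zero_le
    · exact hby.trans ((v.valuation_le_one_iff _).2 (pow_mem_of hv hL _ y hy))
  refine Or.inr ⟨w ^ (t * i), Submodule.pow_mem_pow _ ?_ _, ?_⟩
  · have h1 := Submodule.mul_mem_mul hw hD.one
    rwa [mul_one] at h1
  · rw [map_pow, hw1, one_pow, map_mul]
    exact mul_lt_one_of_lt_of_le hQ hb1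

/-- The bound of `r`, from the growth estimate at the bad divisor `v` and (X). -/
theorem r_le {n : ℕ} (hn : 0 < n) (hcl : ∀ P : Submodule k K, P.FG → (cl P).FG)
    {L : Submodule k K} {c : ℕ} {τ : K} {c' : ℕ}
    {q : K [⋀^Fin (n + 1)]→ₗ[k] K} (hD : Dat k n L c τ c' q) {m : ℕ} {W : Submodule k K}
    (hWm : W ≤ L ^ m) {f : Fin (n + 1) → K} {v : ValuationSubring K} (hv : Ov k v)
    (hbad : BadF L (c + m) τ W q f v) {t s : ℕ} (ht : 0 < t) (hs : 0 < s) {W' : Submodule k K}
    (hW' : W' ≤ W) (hX : ∃ᶠ N in atTop, XAt L (m + 1) (c + m) τ t W q f W' N) {r : ℕ}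
    (hr : ∃ e₀ : ℕ, ∀ e ≥ e₀, ∀ᶠ l : ℕ in atTop, ∀ Kr : Submodule k K,
        Kr ≤ cl ((W * L) ^ (t * s * (l + e))) →
        (∀ a ∈ Kr, Gt v a ((W * L) ^ (t * s * (l + e)))) →
        finrank k (cl ((W' * L) ^ (t * s * (l + e))) ⊔ Kr : Submodule k K) +
          r * (l + (n - 1)).choose (n - 1) ≤ finrank k (cl ((W * L) ^ (t * s * (l + e))))) :
    r ≤ C9 n t * n.factorial * (t * s) ^ n := by
  have hWfg : W.FG := by
    have h1 : FiniteDimensional k (L ^ m : Submodule k K) := Module.Finite.iff_fg.2 (hD.fg.pow m)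
    have h2 : FiniteDimensional k W := Submodule.finiteDimensional_of_le hWm
    exact Module.Finite.iff_fg.1 h2
  have hHfg : ∀ N : ℕ, (cl ((W * L) ^ N)).FG := fun N => hcl _ ((hWfg.mul hD.fg).pow N)
  have hle : ∀ N : ℕ, cl ((W' * L) ^ N) ≤ cl ((W * L) ^ N) := fun N =>
    cl_mono (pow_le_pow_left' (mul_le_mul' hW' le_rfl) N)
  have hfr : ∀ N : ℕ, finrank k (cl ((W' * L) ^ N)) ≤ finrank k (cl ((W * L) ^ N)) := fun N => by
    have h1 : FiniteDimensional k (cl ((W * L) ^ N)) := Module.Finite.iff_fg.2 (hHfg N)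
    exact Submodule.finrank_mono (hle N)
  obtain ⟨e₀, he₀⟩ := hr
  have hev := he₀ e₀ le_rfl
  by_cases hT : Tp L (c + m) τ W v
  · refine (numStmt n (t * s) r (C9 n t) (fun i => finrank k (cl ((W * L) ^ i)) -
      finrank k (cl ((W' * L) ^ i) ⊔ bd L (c + m) τ W i : Submodule k K)) hn
      (Nat.mul_pos ht hs)).2 ⟨e₀, hev.mono fun l hl => ?_⟩ (hX.mono fun N hN => ?_)
    · have h1 := hl (bd L (c + m) τ W (t * s * (l + e₀))) (van_le _ _) fun a ha => ha.2 v hT
      omega
    · have h1 := hfr N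
      unfold XAt at hN
      have h2 : ∑ i ∈ Finset.range N, (finrank k (cl ((W * L) ^ i)) -
          finrank k (cl ((W' * L) ^ i) ⊔ bd L (c + m) τ W i : Submodule k K)) ≤
          ∑ i ∈ Finset.range N,
          ((finrank k (cl ((W * L) ^ i)) -
          finrank k (cl ((W' * L) ^ i) ⊔ bd L (c + m) τ W i : Submodule k K)) +
        (finrank k (cl ((W * L) ^ (t * i))) -
          finrank k (cl ((W' * L) ^ (t * i)) ⊔ rm L (W * L) (m + 1) t i (q f) :
            Submodule k K))) :=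
        Finset.sum_le_sum fun i _ => Nat.le_add_right _ _
      omega
  · have hq : v.valuation (q f) < 1 := hbad.resolve_left hT
    refine ((numStmt n s r (C9 n t) (fun i => finrank k (cl ((W * L) ^ (t * i))) -
          finrank k (cl ((W' * L) ^ (t * i)) ⊔ rm L (W * L) (m + 1) t i (q f) :
            Submodule k K)) hn hs).2 ⟨e₀, hev.mono fun l hl => ?_⟩
            (hX.mono fun N hN => ?_)).trans ?_
    · have h1 := hl (rm L (W * L) (m + 1) t (s * (l + e₀)) (q f)) (by
        rw [mul_assoc]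
        exact inf_le_left) fun a ha => by
          rw [mul_assoc]
          exact gt_of_mem_rm hD hWm hv hT hq _ _ _ ha
      rw [mul_assoc] at h1
      omega
    · have h1 := hfr N
      unfold XAt at hN
      have h2 : ∑ i ∈ Finset.range N, (finrank k (cl ((W * L) ^ (t * i))) -
          finrank k (cl ((W' * L) ^ (t * i)) ⊔ rm L (W * L) (m + 1) t i (q f) :
            Submodule k K)) ≤
          ∑ i ∈ Finset.range N,
          ((finrank k (cl ((W * L) ^ i)) -
          finrank k (cl ((W' * L) ^ i) ⊔ bd L (c + m) τ W i : Submodule k K)) +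
        (finrank k (cl ((W * L) ^ (t * i))) -
          finrank k (cl ((W' * L) ^ (t * i)) ⊔ rm L (W * L) (m + 1) t i (q f) :
            Submodule k K))) :=
        Finset.sum_le_sum fun i _ => Nat.le_add_left _ _
      omega
    · refine Nat.mul_le_mul_left _ (Nat.pow_le_pow_left ?_ n)
      exact Nat.le_mul_of_pos_left s ht

end Pool.Agent.TG9
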