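import Pool.Agent.Lib.TG9_h96.C1
import Pool.Agent.Lib.TG9.Defs2

/-!
# TANK G, BC9: row SEC: forms with generic coefficients, several fields at once
-/

set_option autoImplicit false

namespace Pool.Agent.TG9

open Pool.Agent.TG AlgebraicIndependent
open Pool.Agent.TG15 (Gt Tp hx smulK)

universe u

/-! ### Algebraic independence -/

section Ind

variable {k₁ k : Type u} [Field k₁] [Field k] [Algebra k₁ k]

/-- Linear combinations, with coefficients in `k₁` and linearly independent (a unit matrix is a
submatrix), of algebraically independent elements are algebraically independent. -/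
theorem indep_change {ι κ : Type*} [Fintype ι] {c : ι → k} (hc : AlgebraicIndependent k₁ c)
    (e : κ → ι) (he : Function.Injective e) (A : ι → κ → k₁)
    (hA : ∀ a, A (e a) a = 1) (hA' : ∀ a a', a ≠ a' → A (e a) a' = 0) :
    AlgebraicIndependent k₁ (fun a => ∑ m, algebraMap k₁ k (A m a) * c m) := by
  classical
  let φ : MvPolynomial κ k₁ →ₐ[k₁] MvPolynomial ι k₁ :=
    MvPolynomial.aeval fun a => ∑ m, MvPolynomial.C (A m a) * MvPolynomial.X m
  let ρ : MvPolynomial ι k₁ →ₐ[k₁] MvPolynomial κ k₁ :=
    MvPolynomial.aeval (Function.extend e MvPolynomial.X 0)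
  have h1 : ρ.comp φ = AlgHom.id k₁ _ := by
    refine MvPolynomial.algHom_ext fun a => ?_
    rw [AlgHom.comp_apply, MvPolynomial.aeval_X, map_sum, AlgHom.id_apply]
    have h2 : ∀ m, ρ (MvPolynomial.C (A m a) * MvPolynomial.X m) =
        if m = e a then MvPolynomial.X a else 0 := by
      intro m
      rw [map_mul, MvPolynomial.aeval_X, MvPolynomial.algHom_C]
      by_cases hm : ∃ a', e a' = m
      · obtain ⟨a', rfl⟩ := hm
        rw [he.extend_apply]
        rcases eq_or_ne a' a with rfl | h
        · rw [if_pos rfl, hA, map_one, one_mul]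
        · rw [if_neg (fun h' => h (he h')), hA' _ _ h, map_zero, zero_mul]
      · rw [Function.extend_apply' _ _ _ hm, if_neg (fun h => hm ⟨a, h.symm⟩)]
        exact mul_zero _
    rw [Finset.sum_congr rfl fun m _ => h2 m, Finset.sum_ite_eq' Finset.univ (e a)]
    exact if_pos (Finset.mem_univ _)
  have h2 : Function.Injective φ := by
    intro x y hxy
    have h3 := congrArg ρ hxy
    rw [← AlgHom.comp_apply, ← AlgHom.comp_apply, h1] at h3
    exact h3
  have h3 : MvPolynomial.aeval (fun a => ∑ m, algebraMap k₁ k (A m a) * c m) =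
      (MvPolynomial.aeval c).comp φ := by
    refine MvPolynomial.algHom_ext fun a => ?_
    rw [AlgHom.comp_apply, MvPolynomial.aeval_X, MvPolynomial.aeval_X, map_sum]
    refine Finset.sum_congr rfl fun m _ => ?_
    rw [map_mul, MvPolynomial.aeval_X, MvPolynomial.algHom_C]
  rw [AlgebraicIndependent, h3, AlgHom.coe_comp]
  exact Function.Injective.comp hc h2

/-- Smaller fields of constants. -/
theorem indep_subfield {k : Type u} [Field k] {F F' : Subfield k} (h : F ≤ F') {ι : Type*}
    {c : ι → k} (hc : AlgebraicIndependent F' c) : AlgebraicIndependent F c := by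
  have h1 : ∀ P : MvPolynomial ι F, MvPolynomial.aeval c P =
      MvPolynomial.aeval c (MvPolynomial.map (Subfield.inclusion h) P) := by
    intro P
    rw [MvPolynomial.aeval_def, MvPolynomial.aeval_def, MvPolynomial.eval₂_map]
    rfl
  intro P Q hPQ
  rw [h1, h1] at hPQ
  exact MvPolynomial.map_injective _ (Subfield.inclusion h).injective (hc hPQ)

/-- A finite set in a field of transcendence degree `≤ d` is algebraic over `≤ d` of its
elements. -/
theorem exists_small {k E : Type u} [Field k] [Field E] [Algebra k E] {S : Set E} (hS : S.Finite)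
    {F : IntermediateField k E} {d : ℕ} (hF : Algebra.trdeg k F ≤ (d : Cardinal.{u}))
    (hSF : S ⊆ F) : ∃ X ⊆ S, X.encard ≤ d ∧ ∀ x ∈ S, x ∈ TGCh.cl k X := by
  classical
  obtain ⟨X, hX⟩ := (matroid k E).exists_isBasis S (Set.subset_univ _)
  have hfin : X.Finite := hS.subset hX.subset
  refine ⟨X, hX.subset, ?_, fun x hx => hX.subset_closure hx⟩
  have hind : AlgebraicIndependent k ((↑) : X → E) := matroid_indep_iff.1 hX.indep
  have : Fintype X := hfin.fintype
  let e := Fintype.equivFin X
  let c' : Fin (Fintype.card X) → F := fun i => ⟨(e.symm i : E), hSF (hX.subset (e.symm i).2)⟩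
  have h1 : AlgebraicIndependent k c' := by
    have h2 : AlgebraicIndependent k ((F.val : F →ₐ[k] E) ∘ c') :=
      hind.comp e.symm e.symm.injective
    exact h2.of_comp _
  have h2 := h1.lift_cardinalMk_le_trdeg
  rw [Cardinal.mk_fin, Cardinal.lift_natCast, Cardinal.lift_id'.{0, u}] at h2
  have h3 : Fintype.card X ≤ d := by exact_mod_cast h2.trans hF
  rw [Set.encard_eq_coe_toFinset_card, Set.toFinset_card]
  exact_mod_cast h3

end Ind

/-! ### Forms -/

/-- The exponents of degree `s`. -/
abbrev Mon (n s : ℕ) : Type := {m : Fin (n + 1) →₀ ℕ // m.degree = s}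

instance (n s : ℕ) : Finite (Mon n s) :=
  ((Finsupp.finite_of_degree_le (σ := Fin (n + 1)) s).subset fun _ hm => le_of_eq hm).to_subtype

section Forms

variable {k E : Type u} [Field k] [Field E] [Algebra k E]

/-- The form with coefficients `c`. -/
noncomputable def form {n s : ℕ} [Fintype (Mon n s)] (c : Mon n s → k) :
    MvPolynomial (Fin (n + 1)) k := ∑ m : Mon n s, MvPolynomial.monomial m.1 (c m)

theorem form_isHomogeneous {n s : ℕ} [Fintype (Mon n s)] (c : Mon n s → k) :
    (form c).IsHomogeneous s :=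
  MvPolynomial.IsHomogeneous.sum _ _ _ fun m _ => MvPolynomial.isHomogeneous_monomial _ m.2

theorem coeff_form {n s : ℕ} [Fintype (Mon n s)] (c : Mon n s → k) (m : Mon n s) :
    (form c).coeff m.1 = c m := by
  classical
  rw [form, MvPolynomial.coeff_sum, Finset.sum_eq_single m]
  · rw [MvPolynomial.coeff_monomial, if_pos rfl]
  · intro m' _ h
    rw [MvPolynomial.coeff_monomial, if_neg fun h' => h (Subtype.ext h')]
  · exact fun h => absurd (Finset.mem_univ _) h

/-- The value of a monomial. -/
noncomputable def mv {n s : ℕ} (y : Fin (n + 1) → E) (m : Mon n s) : E := ∏ a, y a ^ m.1 a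

theorem aeval_form {n s : ℕ} [Fintype (Mon n s)] (c : Mon n s → k) (y : Fin (n + 1) → E) :
    MvPolynomial.aeval y (form c) = ∑ m, c m • mv y m := by
  rw [form, map_sum]
  refine Finset.sum_congr rfl fun m _ => ?_
  rw [MvPolynomial.aeval_monomial, Algebra.smul_def, mv, Finsupp.prod_fintype]
  exact fun _ => pow_zero _

theorem mv_div {n s : ℕ} (y : Fin (n + 1) → E) (x : E) (m : Mon n s) :
    mv (fun a => y a / x) m = mv y m / x ^ s := by
  have h : ∑ a, m.1 a = s := by rw [← Finsupp.degree_eq_sum, m.2]
  rw [mv, mv]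
  simp only [div_pow]
  rw [Finset.prod_div_distrib, Finset.prod_pow_eq_pow_sum, h]

/-- The forms of degree `s` in `y` span the power of the span of `y`. -/
theorem span_mv {n s : ℕ} (y : Fin (n + 1) → E) :
    Submodule.span k (Set.range (mv y : Mon n s → E)) =
      Submodule.span k (Set.range y) ^ s := by
  classical
  apply le_antisymm
  · rw [Submodule.span_le]
    rintro _ ⟨m, rfl⟩
    have h1 : ∀ T : Finset (Fin (n + 1)), ∏ a ∈ T, y a ^ m.1 a ∈
        Submodule.span k (Set.range y) ^ (∑ a ∈ T, m.1 a) := by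
      intro T
      induction T using Finset.induction_on with
      | empty =>
        rw [Finset.prod_empty, Finset.sum_empty, pow_zero]
        exact Submodule.one_le.1 le_rfl
      | insert a T ha ih =>
        rw [Finset.prod_insert ha, Finset.sum_insert ha, pow_add]
        exact Submodule.mul_mem_mul
          (Submodule.pow_mem_pow _ (Submodule.subset_span (Set.mem_range_self a)) _) ih
    have h2 := h1 Finset.univ
    have h3 : ∑ a, m.1 a = s := by
      rw [← Finsupp.degree_eq_sum, m.2]
    rw [h3] at h2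
    exact h2
  · induction s with
    | zero =>
      rw [pow_zero, Submodule.one_le]
      refine Submodule.subset_span ⟨⟨0, map_zero _⟩, ?_⟩
      exact Finset.prod_eq_one fun a _ => pow_zero _
    | succ s ih =>
      rw [pow_succ]
      refine (mul_le_mul' ih le_rfl).trans ?_
      rw [Submodule.span_mul_span, Submodule.span_le]
      rintro _ ⟨_, ⟨m, rfl⟩, _, ⟨a, rfl⟩, rfl⟩
      refine Submodule.subset_span ⟨⟨m.1 + Finsupp.single a 1, ?_⟩, ?_⟩
      · rw [map_add, m.2, Finsupp.degree_single]
      · change ∏ b, y b ^ ((m.1 + Finsupp.single a 1 : Fin (n + 1) →₀ ℕ) b) = mv y m * y a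
        simp only [Finsupp.add_apply, pow_add, Finset.prod_mul_distrib]
        congr 1
        rw [Finset.prod_eq_single a]
        · rw [Finsupp.single_eq_same, pow_one]
        · intro b _ hb
          rw [Finsupp.single_eq_of_ne hb, pow_zero]
        · exact fun h => absurd (Finset.mem_univ _) h

/-- One field: generic forms of degree `s` at every point. -/
theorem sec_one [IsAlgClosed k] {n s d : ℕ} [Fintype (Mon n s)] (hdn : d ≤ n) (hd : 0 < d)
    (hs : n + 1 ≤ s) (y : Fin (n + 1) → E) (hy : ∃ a, y a ≠ 0)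
    (htr : Algebra.trdeg k (IntermediateField.adjoin k
      {x : E | ∃ a b, x = y a / y b}) ≤ (d : Cardinal.{u})) :
    ∃ T : Set k, T.Finite ∧ ∀ F : Subfield k, T ⊆ F → ∀ c : Fin (n + 1) × Mon n s → k,
      AlgebraicIndependent F c → ∀ V : ValuationSubring E, ZDim k V →
        ∀ a₀, (∀ a, y a / y a₀ ∈ V) → y a₀ ≠ 0 →
        ∃ i₀ : Fin (n + 1), (i₀ : ℕ) ≤ d ∧
          V.valuation (MvPolynomial.aeval y (form fun m => c (i₀, m))) =
            V.valuation (y a₀) ^ s ∧
          ∀ a : Fin (n + 1), ∀ β : k, V.valuation (y a / y a₀ - algebraMap k _ β) < 1 →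
            ∃ (i : Fin (n + 1)) (γ : k), (i : ℕ) ≤ d ∧
              V.valuation (MvPolynomial.aeval y (form fun m => c (i, m)) /
                MvPolynomial.aeval y (form fun m => c (i₀, m)) - algebraMap k _ γ) < 1 ∧
              V.valuation (y a / y a₀ - algebraMap k _ β) ^ (d + 1) ≤
                V.valuation (MvPolynomial.aeval y (form fun m => c (i, m)) /
                  MvPolynomial.aeval y (form fun m => c (i₀, m)) - algebraMap k _ γ) := by
  classical
  obtain ⟨a₁, ha₁⟩ := hy
  set y' : Fin (n + 1) → E := fun a => y a / y a₁ with hy'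
  set H : Submodule k E := Submodule.span k (Set.range y') with hH
  -- the transcendence basis
  obtain ⟨X, hXS, hXd, hXcl⟩ := exists_small (S := Set.range y') (Set.finite_range y') htr (by
    rintro _ ⟨a, rfl⟩
    exact IntermediateField.subset_adjoin _ _ ⟨a, a₁, rfl⟩)
  -- a basis among the monomials
  obtain ⟨κ, σ, hσ, hσspan, hσlin⟩ := exists_linearIndependent' k (mv y' : Mon n s → E)
  have : Finite κ := Finite.of_injective σ hσ
  obtain ⟨r, ⟨e⟩⟩ := Finite.exists_equiv_fin κ
  set τ : Fin r → Mon n s := fun i => σ (e.symm i) with hτ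
  have hτinj : Function.Injective τ := hσ.comp e.symm.injective
  set b : Fin r → E := fun i => mv y' (τ i) with hb
  have hblin : LinearIndependent k b := hσlin.comp e.symm e.symm.injective
  have hbspan : Submodule.span k (Set.range b) = H ^ s := by
    rw [hH, ← span_mv y', ← hσspan]
    congr 1
    ext x
    constructor
    · rintro ⟨i, rfl⟩
      exact ⟨e.symm i, rfl⟩
    · rintro ⟨i, rfl⟩
      exact ⟨e i, by rw [hb, hτ]; exact congrArg (fun i => mv y' (σ i)) (e.symm_apply_apply i)⟩
  -- coordinates of the monomials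
  have hcoord : ∀ m : Mon n s, ∃ A : Fin r → k, (∑ i, A i • b i) = mv y' m := by
    intro m
    have h1 : mv y' m ∈ Submodule.span k (Set.range b) := by
      rw [hbspan, hH, ← span_mv y']
      exact Submodule.subset_span ⟨m, rfl⟩
    exact (Submodule.mem_span_range_iff_exists_fun k).1 h1
  choose A hA using hcoord
  have hAτ : ∀ i i', A (τ i) i' = if i = i' then 1 else 0 := by
    intro i i'
    have h1 : (∑ j, (A (τ i) j - if i = j then 1 else 0) • b j) = 0 := by
      simp only [sub_smul, Finset.sum_sub_distrib]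
      rw [hA (τ i)]
      simp only [ite_smul, one_smul, zero_smul]
      rw [Finset.sum_ite_eq, if_pos (Finset.mem_univ _)]
      exact sub_self _
    exact sub_eq_zero.1 (Fintype.linearIndependent_iff.1 hblin _ h1 i')
  have hbcl : ∀ i, IsAlgebraic (Algebra.adjoin k X) (b i) := by
    intro i
    rw [← TGCh.mem_cl_iff]
    have h1 : ∀ T : Finset (Fin (n + 1)), ∏ a ∈ T, y' a ^ (τ i).1 a ∈ TGCh.cl k X := by
      have hone : (1 : E) ∈ TGCh.cl k X := by
        have h := TGCh.div_mem_cl (hXcl (y' a₁) ⟨a₁, rfl⟩) (hXcl (y' a₁) ⟨a₁, rfl⟩)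
        rw [hy', div_self (div_ne_zero ha₁ ha₁)] at h
        exact h
      intro T
      induction T using Finset.induction_on with
      | empty => rwa [Finset.prod_empty]
      | insert a T ha ih =>
        rw [Finset.prod_insert ha]
        refine TGCh.mul_mem_cl ?_ ih
        generalize (τ i).1 a = l
        induction l with
        | zero => rwa [pow_zero]
        | succ l ihl =>
          rw [pow_succ]
          exact TGCh.mul_mem_cl ihl (hXcl _ ⟨a, rfl⟩)
    exact h1 Finset.univ
  obtain ⟨T₁, hT₁, hT₁F⟩ := cl_def_family (X := X) b hbcl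
  refine ⟨T₁ ∪ Set.range (fun p : Mon n s × Fin r => A p.1 p.2),
    hT₁.union (Set.finite_range _), fun F hF c hc V hV a₀ ha₀ hya₀ => ?_⟩
  -- the coordinates of the forms
  have hAF : ∀ m i, A m i ∈ F := fun m i =>
    hF (Or.inr ⟨(m, i), rfl⟩)
  let u : Fin (d + 1) → Fin r → k := fun i j =>
    ∑ m : Mon n s, A m j * c (Fin.castLE (Nat.succ_le_succ hdn) i, m)
  have hu : AlgebraicIndependent F (fun p : Fin (d + 1) × Fin r => u p.1 p.2) := by
    have h1 := indep_change (k₁ := F) hc
      (fun p : Fin (d + 1) × Fin r => (Fin.castLE (Nat.succ_le_succ hdn) p.1, τ p.2))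
      (fun p q hpq => by
        have h2 : Fin.castLE (Nat.succ_le_succ hdn) p.1 = Fin.castLE (Nat.succ_le_succ hdn) q.1 :=
          congrArg Prod.fst hpq
        have h3 : τ p.2 = τ q.2 := congrArg Prod.snd hpq
        exact Prod.ext (Fin.castLE_injective _ h2) (hτinj h3))
      (fun q p => if q.1 = Fin.castLE (Nat.succ_le_succ hdn) p.1 then
        (⟨A q.2 p.2, hAF _ _⟩ : F) else 0)
      (fun p => by
        rw [if_pos rfl]
        exact Subtype.ext ((hAτ p.2 p.2).trans (if_pos rfl)))
      (fun p q hpq => by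
        dsimp only
        split_ifs with h
        · refine Subtype.ext ((hAτ p.2 q.2).trans (if_neg fun h' => hpq ?_))
          exact Prod.ext (Fin.castLE_injective _ h) h'
        · rfl)
    have h2 : (fun p : Fin (d + 1) × Fin r => u p.1 p.2) = fun p => ∑ q : Fin (n + 1) × Mon n s,
        algebraMap F k (if q.1 = Fin.castLE (Nat.succ_le_succ hdn) p.1 then
        (⟨A q.2 p.2, hAF _ _⟩ : F) else 0) * c q := by
      funext p
      rw [Fintype.sum_prod_type]
      symm
      rw [Finset.sum_eq_single (Fin.castLE (Nat.succ_le_succ hdn) p.1)]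
      · refine Finset.sum_congr rfl fun m _ => ?_
        rw [if_pos rfl]
        rfl
      · intro i _ hi
        refine Finset.sum_eq_zero fun m _ => ?_
        rw [if_neg hi, map_zero, zero_mul]
      · exact fun h => absurd (Finset.mem_univ _) h
    rw [h2]
    exact h1
  have hval : ∀ i : Fin (d + 1), ∑ j, u i j • b j =
      MvPolynomial.aeval y (form fun m => c (Fin.castLE (Nat.succ_le_succ hdn) i, m)) /
        y a₁ ^ s := by
    intro i
    rw [aeval_form, Finset.sum_div]
    simp only [u, Finset.sum_smul]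
    rw [Finset.sum_comm]
    refine Finset.sum_congr rfl fun m _ => ?_
    rw [smul_div_assoc, ← mv_div, ← hA m, Finset.smul_sum]
    refine Finset.sum_congr rfl fun j _ => ?_
    rw [smul_smul, mul_comm]
  -- the minimal element of `H`
  have hg0 : y a₀ / y a₁ ≠ 0 := div_ne_zero hya₀ ha₁
  have hg : IsMin V H (y a₀ / y a₁) := by
    refine isMin_of_span hV.ov (Submodule.subset_span ⟨a₀, rfl⟩) hg0 ?_
    rintro _ ⟨a, rfl⟩
    have h1 : y' a / (y a₀ / y a₁) = y a / y a₀ := by
      rw [hy', div_div_div_cancel_right₀ ha₁]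
    rw [h1]
    exact ha₀ a
  obtain ⟨⟨j₀, hj₀⟩, hpt⟩ := c1_pt (k₁ := F) hV hd hXd (t := s) (by omega) b
    (hT₁F F (Set.subset_union_left.trans hF)) hblin hbspan u hu hg
  have hgs : IsMin V (H ^ s) ((y a₀ / y a₁) ^ s) := hg.pow hV.ov s
  have hya1s : (y a₁) ^ s ≠ 0 := pow_ne_zero _ ha₁
  have hratio : ∀ i j : Fin (d + 1), (∑ l, u i l • b l) / (∑ l, u j l • b l) =
      MvPolynomial.aeval y (form fun m => c (Fin.castLE (Nat.succ_le_succ hdn) i, m)) /
      MvPolynomial.aeval y (form fun m => c (Fin.castLE (Nat.succ_le_succ hdn) j, m)) := by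
    intro i j
    rw [hval, hval, div_div_div_cancel_right₀ hya1s]
  refine ⟨Fin.castLE (Nat.succ_le_succ hdn) j₀, Nat.le_of_lt_succ j₀.isLt, ?_, ?_⟩
  · have h := val_div_eq_one hgs hj₀
    rw [hval, div_pow, div_div_div_cancel_right₀ hya1s, map_div₀, map_pow,
      div_eq_one_iff_eq (pow_ne_zero _ (by rw [Valuation.ne_zero_iff]; exact hya₀))] at h
    exact h
  · intro a β hβ
    have h1 : (y' a - β • (y a₀ / y a₁)) / (y a₀ / y a₁) = y a / y a₀ - algebraMap k E β := by
      rw [sub_div, Algebra.smul_def, mul_div_cancel_right₀ _ hg0]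
      rw [hy', div_div_div_cancel_right₀ ha₁]
    have h2 : V.valuation (y' a - β • (y a₀ / y a₁)) < V.valuation (y a₀ / y a₁) := by
      rw [← h1, map_div₀] at hβ
      exact (div_lt_one₀ (by rw [zero_lt_iff, Valuation.ne_zero_iff]; exact hg0)).1 hβ
    obtain ⟨i, γ, h3, h4⟩ := hpt j₀ hj₀ _ (Submodule.sub_mem _
      (Submodule.subset_span ⟨a, rfl⟩) (Submodule.smul_mem _ β hg.mem)) h2
    rw [h1] at h4
    rw [hratio] at h3 h4
    exact ⟨Fin.castLE (Nat.succ_le_succ hdn) i, γ, Nat.le_of_lt_succ i.isLt, h3, h4⟩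

end Forms

/-- ROW SEC. -/
theorem secStmt (k : Type u) [Field k] (n s : ℕ) : SecStmt k n s := by
  classical
  intro hk hbig hs J hJ E _ _ d hdn hd y hy htr S₀ hS₀
  have := Fintype.ofFinite (Mon n s)
  choose T hT hTF using fun j => sec_one (k := k) (s := s) (hdn j) (hd j) hs (y j) (hy j) (htr j)
  set S : Set k := S₀ ∪ ⋃ j, T j with hS
  have hSc : S.Countable := hS₀.union (Set.countable_iUnion fun j => (hT j).countable)
  obtain ⟨x, hx⟩ := hbig S hSc
  obtain ⟨r, ⟨e⟩⟩ := Finite.exists_equiv_fin (Fin (n + 1) × Mon n s)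
  let c : Fin (n + 1) × Mon n s → k := fun p => x (e p : ℕ)
  have hc : AlgebraicIndependent (Subfield.closure S) c :=
    hx.comp (fun p => (e p : ℕ)) fun p q hpq => e.injective (Fin.ext hpq)
  refine ⟨fun i => form fun m => c (i, m), fun i => form_isHomogeneous _, ⟨c, ?_, fun i m =>
    coeff_form _ m⟩, fun j V hV a₀ ha₀ hya₀ => ?_⟩
  · exact indep_subfield (Subfield.closure_mono Set.subset_union_left) hc
  · exact hTF j (Subfield.closure S) ((Set.subset_iUnion T j).trans
      (Set.subset_union_right.trans Subfield.subset_closure)) c hc V hV a₀ ha₀ hya₀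

end Pool.Agent.TG9
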